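import Pool.Agent.Q260.DJ.Den
import Pool.Agent.H370R2.DirGood
import Pool.Agent.H370R2.Local

set_option autoImplicit false

open Complex Filter Topology Set

namespace Pool.Agent.Q187.DJ

open Pool.Agent.Q260.DJ

/-- the set of zeros -/
def rs (f : ℂ → ℂ) (σ T : ℝ) : Set ℂ := {s : ℂ | f s = 0 ∧ σ ≤ s.re ∧ 0 < s.im ∧ s.im ≤ T}

theorem rs_mono (f : ℂ → ℂ) {σ σ' T T' : ℝ} (hσ : σ ≤ σ') (hT : T ≤ T') : rs f σ' T ⊆ rs f σ T' :=
  fun _ hs => ⟨hs.1, hσ.trans hs.2.1, hs.2.2.1, hs.2.2.2.trans hT⟩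

theorem right_eq (f : ℂ → ℂ) (σ T : ℝ) (h : (rs f σ T).Finite) :
    (right f σ T : ℝ) = ∑ s ∈ h.toFinset, (analyticOrderNatAt f s : ℝ) := by
  have e : right f σ T = ∑ᶠ s ∈ rs f σ T, analyticOrderNatAt f s := rfl
  rw [e, finsum_mem_eq_finite_toFinset_sum _ h]
  push_cast
  rfl

theorem right_mono (f : ℂ → ℂ) {σ σ' T T' : ℝ} (h : (rs f σ T').Finite) (hσ : σ ≤ σ')
    (hT : T ≤ T') : (right f σ' T : ℝ) ≤ right f σ T' := by
  have h' : (rs f σ' T).Finite := h.subset (rs_mono f hσ hT)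
  rw [right_eq f σ' T h', right_eq f σ T' h]
  apply Finset.sum_le_sum_of_subset_of_nonneg
  · intro s hs
    rw [Set.Finite.mem_toFinset] at hs ⊢
    exact rs_mono f hσ hT hs
  · intro _ _ _
    exact Nat.cast_nonneg _

theorem trivial_bd (f : ℂ → ℂ) (hfin : ∀ T, (rs f (1 / 2) T).Finite)
    (hloc : ∃ C T0 : ℝ, 0 < C ∧ 3 ≤ T0 ∧ ∀ T : ℝ, T0 ≤ T → ∀ Z : Finset ℂ,
      (∀ z ∈ Z, f z = 0 ∧ 1 / 2 ≤ z.re ∧ |z.im - T| ≤ 1) →
        ∑ z ∈ Z, (analyticOrderNatAt f z : ℝ) ≤ C * Real.log T) :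
    ∃ K : ℝ, 0 < K ∧ ∀ T : ℝ, 2 ≤ T → (right f (1 / 2) T : ℝ) ≤ K * (T * Real.log T) := by
  classical
  obtain ⟨C, T0, hC, hT0, hl⟩ := hloc
  obtain ⟨M, hM⟩ : ∃ M : ℝ, M = ∑ s ∈ (hfin T0).toFinset, (analyticOrderNatAt f s : ℝ) := ⟨_, rfl⟩
  have hM0 : 0 ≤ M := by rw [hM]; positivity
  have hlog2 : 0 < Real.log 2 := Real.log_pos (by norm_num)
  refine ⟨M / (2 * Real.log 2) + 3 * C, by positivity, ?_⟩
  intro T hT
  have hTlog : Real.log 2 ≤ Real.log T := Real.log_le_log (by norm_num) hT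
  rw [right_eq f _ T (hfin T)]
  set S := (hfin T).toFinset with hS
  have hsplit : ∑ s ∈ S, (analyticOrderNatAt f s : ℝ) =
      ∑ s ∈ S.filter (fun s => s.im ≤ T0), (analyticOrderNatAt f s : ℝ) +
      ∑ s ∈ S.filter (fun s => ¬ s.im ≤ T0), (analyticOrderNatAt f s : ℝ) :=
    (Finset.sum_filter_add_sum_filter_not _ _ _).symm
  have hlow : ∑ s ∈ S.filter (fun s => s.im ≤ T0), (analyticOrderNatAt f s : ℝ) ≤ M := by
    rw [hM]
    refine Finset.sum_le_sum_of_subset_of_nonneg (fun z hz => ?_) (fun _ _ _ => Nat.cast_nonneg _)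
    obtain ⟨h1, h2⟩ := Finset.mem_filter.1 hz
    rw [hS, Set.Finite.mem_toFinset] at h1
    rw [Set.Finite.mem_toFinset]
    exact ⟨h1.1, h1.2.1, h1.2.2.1, h2⟩
  have hhigh : ∑ s ∈ S.filter (fun s => ¬ s.im ≤ T0), (analyticOrderNatAt f s : ℝ) ≤
      (T + 1) * (C * Real.log (T + 1)) := by
    have hmap : ∀ s ∈ S.filter (fun s => ¬ s.im ≤ T0), ⌊s.im⌋₊ ∈ Finset.range (⌊T⌋₊ + 1) := by
      intro s hs
      obtain ⟨h1, h2⟩ := Finset.mem_filter.1 hs
      rw [hS, Set.Finite.mem_toFinset] at h1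
      rw [Finset.mem_range, Nat.lt_succ_iff]
      exact Nat.floor_le_floor h1.2.2.2
    rw [← Finset.sum_fiberwise_of_maps_to hmap]
    have hfib : ∀ j ∈ Finset.range (⌊T⌋₊ + 1),
        ∑ s ∈ (S.filter (fun s => ¬ s.im ≤ T0)).filter (fun s => ⌊s.im⌋₊ = j),
          (analyticOrderNatAt f s : ℝ) ≤ C * Real.log (T + 1) := by
      intro j hj
      set Y := (S.filter (fun s => ¬ s.im ≤ T0)).filter (fun s => ⌊s.im⌋₊ = j) with hY
      have hlT : 0 ≤ Real.log (T + 1) := Real.log_nonneg (by linarith)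
      rcases Y.eq_empty_or_nonempty with he | ⟨y, hy⟩
      · rw [he, Finset.sum_empty]
        positivity
      · have hYm : ∀ y ∈ Y, f y = 0 ∧ 1 / 2 ≤ y.re ∧ y.im ≤ T ∧ T0 < y.im ∧ (j : ℝ) ≤ y.im ∧
            y.im < j + 1 := by
          intro y hy
          obtain ⟨h1, h2⟩ := Finset.mem_filter.1 hy
          obtain ⟨h3, h4⟩ := Finset.mem_filter.1 h1
          rw [hS, Set.Finite.mem_toFinset] at h3
          push Not at h4
          refine ⟨h3.1, h3.2.1, h3.2.2.2, h4, ?_, ?_⟩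
          · rw [← h2]; exact Nat.floor_le h3.2.2.1.le
          · rw [← h2]; exact Nat.lt_floor_add_one _
        obtain ⟨y1, y2, y3, y4, y5, y6⟩ := hYm y hy
        refine (hl (j + 1) (by linarith) Y ?_).trans ?_
        · intro z hz
          obtain ⟨z1, z2, z3, z4, z5, z6⟩ := hYm z hz
          refine ⟨z1, z2, ?_⟩
          rw [abs_le]
          constructor <;> linarith
        · apply mul_le_mul_of_nonneg_left _ hC.le
          apply Real.log_le_log (by positivity)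
          linarith
    refine (Finset.sum_le_sum hfib).trans ?_
    rw [Finset.sum_const, Finset.card_range, nsmul_eq_mul]
    apply mul_le_mul_of_nonneg_right _ (by
      have : 0 ≤ Real.log (T + 1) := Real.log_nonneg (by linarith)
      positivity)
    push_cast
    have := Nat.floor_le (show 0 ≤ T by linarith)
    linarith
  have hlT1 : Real.log (T + 1) ≤ 2 * Real.log T := by
    have : Real.log (T + 1) ≤ Real.log (T ^ 2) := by
      apply Real.log_le_log (by linarith)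
      nlinarith
    rwa [Real.log_pow] at this
  have hlT0 : 0 ≤ Real.log T := hlog2.le.trans hTlog
  rw [hsplit]
  have e1 : M ≤ M / (2 * Real.log 2) * (T * Real.log T) := by
    rw [div_mul_eq_mul_div, le_div_iff₀ (by positivity)]
    apply mul_le_mul_of_nonneg_left _ hM0
    nlinarith
  have e2 : (T + 1) * (C * Real.log (T + 1)) ≤ 3 * C * (T * Real.log T) := by
    calc (T + 1) * (C * Real.log (T + 1)) ≤ (3 / 2 * T) * (C * (2 * Real.log T)) := by
          apply mul_le_mul (by linarith) _ _ (by positivity)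
          · exact mul_le_mul_of_nonneg_left hlT1 hC.le
          · have : 0 ≤ Real.log (T + 1) := Real.log_nonneg (by linarith)
            positivity
      _ = 3 * C * (T * Real.log T) := by ring
  rw [add_mul]
  linarith

theorem log_le (T ε : ℝ) (hT : 0 ≤ T) (hε : 0 < ε) : Real.log T ≤ 8 / ε * T ^ (ε / 8) := by
  have h := Real.log_le_rpow_div hT (show 0 < ε / 8 by positivity)
  calc Real.log T ≤ T ^ (ε / 8) / (ε / 8) := h
    _ = _ := by field_simp

theorem pass (F G : ℂ → ℂ) (hfin : ∀ T, (rs F (1 / 2) T).Finite)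
    (htriv : ∃ K : ℝ, 0 < K ∧ ∀ T : ℝ, 2 ≤ T → (right F (1 / 2) T : ℝ) ≤ K * (T * Real.log T))
    (hC : Comp F G) (A : ℝ → ℝ) (hA : ContinuousOn A (Set.Icc (1 / 2) 1))
    (hA0 : ∀ x ∈ Set.Icc (1 / 2 : ℝ) 1, 0 ≤ A x) (hA1 : 1 ≤ A (1 / 2)) (h : Estimate G A) :
    Estimate F A := by
  intro ε hε
  have huc := isCompact_Icc.uniformContinuousOn_of_continuous hA
  obtain ⟨δ0, hδ0, hδA⟩ := Metric.uniformContinuousOn_iff.1 huc (ε / 4) (by positivity)
  obtain ⟨M, hM⟩ := (isCompact_Icc.image_of_continuousOn hA).bddAbove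
  have hM' : ∀ x ∈ Icc (1 / 2 : ℝ) 1, A x ≤ M := fun x hx => hM ⟨x, hx, rfl⟩
  obtain ⟨δ, hδ⟩ : ∃ δ : ℝ, δ = δ0 / 2 := ⟨_, rfl⟩
  have hδp : 0 < δ := by rw [hδ]; positivity
  have hδ1 : δ < δ0 := by rw [hδ]; linarith
  obtain ⟨C, hC0, hc⟩ := hC δ hδp
  obtain ⟨C2, T2, hC2, hT2, h2⟩ := h (ε / 4) (by positivity)
  obtain ⟨K3, hK3, h3⟩ := htriv
  have hM0 : 0 ≤ M := (hA0 1 (by constructor <;> norm_num)).trans
    (hM' 1 (by constructor <;> norm_num))
  obtain ⟨E, hE⟩ : ∃ E : ℝ, E = (1 + C) ^ (M + ε) := ⟨_, rfl⟩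
  have hE0 : 0 < E := by rw [hE]; positivity
  refine ⟨C * (8 / ε) ^ 2 * (C2 * E + 1) + K3 * (8 / ε), max 2 T2, by positivity,
    by positivity, fun T hT σ hσ0 hσ1 => ?_⟩
  have b1 : 2 ≤ T := (le_max_left _ _).trans hT
  have b2 : T2 ≤ T := (le_max_right _ _).trans hT
  have hTp : 0 < T := by linarith
  have hT1 : 1 ≤ T := by linarith
  have hlogT : 0 ≤ Real.log T := Real.log_nonneg (by linarith)
  have hlog := log_le T ε hTp.le hε
  have hσm : σ ∈ Icc (1 / 2 : ℝ) 1 := ⟨hσ0, hσ1⟩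
  have hpos : 0 < T ^ (A σ + ε) := by positivity
  rcases le_or_gt (1 / 2 + δ) σ with hcase | hcase
  · have h4 := hc (σ - δ) T (by linarith) b1
    rw [sub_add_cancel] at h4
    have hmem : σ - δ ∈ Icc (1 / 2 : ℝ) 1 := ⟨by linarith, by linarith⟩
    have h7 : A (σ - δ) ≤ A σ + ε / 4 := by
      have h8 := hδA (σ - δ) hmem σ hσm (by
        rw [Real.dist_eq, abs_lt]
        constructor <;> linarith)
      rw [Real.dist_eq] at h8
      have := (abs_lt.1 h8).2
      linarith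
    have hlT : Real.log T ≤ T := (Real.log_le_sub_one_of_pos hTp).trans (by linarith)
    set T' := T + C * Real.log T with hT'
    have hTT' : T ≤ T' := by
      have : 0 ≤ C * Real.log T := by positivity
      linarith
    have hT'2 : T' ≤ (1 + C) * T := by
      have : C * Real.log T ≤ C * T := mul_le_mul_of_nonneg_left hlT hC0.le
      linarith
    have h9 := h2 T' (b2.trans hTT') (σ - δ) hmem.1 hmem.2
    have hAm := hA0 _ hmem
    have h10 : T' ^ (A (σ - δ) + ε / 4) ≤ E * T ^ (A σ + ε / 2) := by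
      have e1 : T' ^ (A (σ - δ) + ε / 4) ≤ ((1 + C) * T) ^ (A σ + ε / 2) := by
        refine (Real.rpow_le_rpow (by linarith) hT'2 (by positivity)).trans
          (Real.rpow_le_rpow_of_exponent_le ?_ (by linarith))
        nlinarith
      refine e1.trans ?_
      rw [Real.mul_rpow (by positivity) hTp.le, hE]
      apply mul_le_mul_of_nonneg_right _ (by positivity)
      apply Real.rpow_le_rpow_of_exponent_le (by linarith)
      have := hM' σ hσm
      linarith
    have h11 : (right G (σ - δ) T' : ℝ) + 1 ≤ (C2 * E + 1) * T ^ (A σ + ε / 2) := by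
      have e2 : (1 : ℝ) ≤ T ^ (A σ + ε / 2) := Real.one_le_rpow hT1 (by
        have := hA0 σ hσm
        linarith)
      have e3 : C2 * T' ^ (A (σ - δ) + ε / 4) ≤ C2 * (E * T ^ (A σ + ε / 2)) :=
        mul_le_mul_of_nonneg_left h10 hC2.le
      calc _ ≤ C2 * (E * T ^ (A σ + ε / 2)) + T ^ (A σ + ε / 2) := by linarith
        _ = _ := by ring
    have h12 : Real.log T ^ 2 ≤ (8 / ε) ^ 2 * T ^ (ε / 4) := by
      have e4 : Real.log T ^ 2 ≤ (8 / ε * T ^ (ε / 8)) ^ 2 := pow_le_pow_left₀ hlogT hlog 2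
      refine e4.trans (le_of_eq ?_)
      rw [mul_pow, ← Real.rpow_natCast (T ^ (ε / 8)) 2, ← Real.rpow_mul hTp.le]
      congr 2
      push_cast
      ring
    calc (right F σ T : ℝ) ≤ C * Real.log T ^ 2 * (right G (σ - δ) T' + 1) := h4
      _ ≤ C * ((8 / ε) ^ 2 * T ^ (ε / 4)) * ((C2 * E + 1) * T ^ (A σ + ε / 2)) := by
          have e5 : 0 ≤ (8 / ε) ^ 2 * T ^ (ε / 4) := by positivity
          gcongr
      _ = C * (8 / ε) ^ 2 * (C2 * E + 1) * (T ^ (ε / 4) * T ^ (A σ + ε / 2)) := by ring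
      _ ≤ C * (8 / ε) ^ 2 * (C2 * E + 1) * T ^ (A σ + ε) := by
          apply mul_le_mul_of_nonneg_left _ (by positivity)
          rw [← Real.rpow_add hTp]
          apply Real.rpow_le_rpow_of_exponent_le hT1
          linarith
      _ ≤ _ := by
          rw [add_mul]
          have : 0 ≤ K3 * (8 / ε) * T ^ (A σ + ε) := by positivity
          linarith
  · have h5 : (right F σ T : ℝ) ≤ right F (1 / 2) T := right_mono F (hfin T) hσ0 le_rfl
    have h7 : 1 ≤ A σ + ε / 4 := by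
      have h8 := hδA (1 / 2) ⟨le_rfl, by norm_num⟩ σ hσm (by
        rw [Real.dist_eq, abs_lt]
        constructor <;> linarith)
      rw [Real.dist_eq] at h8
      have := (abs_lt.1 h8).2
      linarith
    calc (right F σ T : ℝ) ≤ K3 * (T * Real.log T) := h5.trans (h3 T b1)
      _ ≤ K3 * (T ^ (A σ + ε / 4) * (8 / ε * T ^ (ε / 8))) := by
          have e1 : T ≤ T ^ (A σ + ε / 4) := by
            calc T = T ^ (1 : ℝ) := (Real.rpow_one T).symm
              _ ≤ _ := Real.rpow_le_rpow_of_exponent_le hT1 h7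
          gcongr
      _ = K3 * (8 / ε) * (T ^ (A σ + ε / 4) * T ^ (ε / 8)) := by ring
      _ ≤ K3 * (8 / ε) * T ^ (A σ + ε) := by
          apply mul_le_mul_of_nonneg_left _ (by positivity)
          rw [← Real.rpow_add hTp]
          apply Real.rpow_le_rpow_of_exponent_le hT1
          linarith
      _ ≤ _ := by
          rw [add_mul]
          have : 0 ≤ C * (8 / ε) ^ 2 * (C2 * E + 1) * T ^ (A σ + ε) := by positivity
          linarith

/-! zeta -/

/-- finiteness of the zeros in a compact set when the only possible singularity is `1` -/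
theorem finite_zeros_compact {F : ℂ → ℂ} (hF : ∀ s : ℂ, s ≠ 1 → AnalyticAt ℂ F s)
    (h2 : F 2 ≠ 0) (h1 : ∀ᶠ s in 𝓝[≠] (1 : ℂ), F s ≠ 0) {K : Set ℂ} (hK : IsCompact K) :
    {s : ℂ | s ∈ K ∧ F s = 0}.Finite := by
  by_contra hinf
  have hinf : {s : ℂ | s ∈ K ∧ F s = 0}.Infinite := hinf
  obtain ⟨x, hx, hacc⟩ := hinf.exists_accPt_of_subset_isCompact hK (fun s hs => hs.1)
  have hfreq : ∃ᶠ z in 𝓝[≠] x, F z = 0 := by
    rw [accPt_iff_frequently_nhdsNE] at hacc
    exact hacc.mono fun z hz => hz.2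
  by_cases hx1 : x = 1
  · subst hx1
    exact hfreq h1
  · have hU : IsPreconnected ({1}ᶜ : Set ℂ) :=
      (isConnected_compl_singleton_of_one_lt_rank (by simp) (1 : ℂ)).isPreconnected
    have hz := AnalyticOnNhd.eqOn_zero_of_preconnected_of_frequently_eq_zero
      (f := F) (U := ({1}ᶜ : Set ℂ)) (fun s hs => hF s hs) hU hx1 hfreq
    exact h2 (hz (by simp))

theorem fin_zeta (T : ℝ) : (rs riemannZeta (1 / 2) T).Finite := by
  have hcomp : IsCompact (Icc (0 : ℝ) 1 ×ℂ Icc 0 T) := isCompact_Icc.reProdIm isCompact_Icc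
  refine (finite_zeros_compact (F := riemannZeta) (fun s hs => ?_)
    (riemannZeta_ne_zero_of_one_le_re (by simp)) ?_ hcomp).subset ?_
  · have : DifferentiableOn ℂ riemannZeta ({1}ᶜ : Set ℂ) := fun z hz =>
      (differentiableAt_riemannZeta hz).differentiableWithinAt
    exact this.analyticAt (isOpen_compl_singleton.mem_nhds hs)
  · have h := riemannZeta_residue_one
    have h3 := h.eventually_ne (one_ne_zero : (1 : ℂ) ≠ 0)
    filter_upwards [h3] with s hs h0
    rw [h0, mul_zero] at hs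
    exact hs rfl
  · rintro s ⟨h1, h2, h3, h4⟩
    refine ⟨⟨⟨by linarith, ?_⟩, ⟨h3.le, h4⟩⟩, h1⟩
    by_contra hc
    push Not at hc
    exact riemannZeta_ne_zero_of_one_le_re hc.le h1

theorem loc_zeta : ∃ C T0 : ℝ, 0 < C ∧ 3 ≤ T0 ∧ ∀ T : ℝ, T0 ≤ T → ∀ Z : Finset ℂ,
      (∀ z ∈ Z, riemannZeta z = 0 ∧ 1 / 2 ≤ z.re ∧ |z.im - T| ≤ 1) →
        ∑ z ∈ Z, (analyticOrderNatAt riemannZeta z : ℝ) ≤ C * Real.log T := by
  classical
  obtain ⟨C, hC, hz⟩ := H370.zcount H370.good_zeta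
  refine ⟨2 * (2 * C), 5, by positivity, by norm_num, ?_⟩
  intro T hT Z hZ
  have hlT : 0 ≤ Real.log T := Real.log_nonneg (by linarith)
  have half : ∀ t : ℝ, 3 ≤ t → t ≤ T → ∀ Y : Finset ℂ,
      (∀ z ∈ Y, riemannZeta z = 0 ∧ 1 / 2 ≤ z.re ∧ t - 1 < z.im ∧ z.im ≤ t + 1) →
        ∑ z ∈ Y, (analyticOrderNatAt riemannZeta z : ℝ) ≤ 2 * C * Real.log T := by
    intro t ht htT Y hY
    have hfin := H370.zset_finite H370.good_zeta (t - 1) (t + 1) (by linarith)
    have hNN : H370.NN riemannZeta (t - 1) (t + 1) =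
        ∑ s ∈ hfin.toFinset, H370.mult riemannZeta s := by
      unfold H370.NN
      exact finsum_mem_eq_finite_toFinset_sum _ hfin
    have h1 := hz t ht
    rw [hNN] at h1
    push_cast at h1
    have h2 : ∑ z ∈ Y, (analyticOrderNatAt riemannZeta z : ℝ) ≤
        ∑ s ∈ hfin.toFinset, (H370.mult riemannZeta s : ℝ) := by
      refine Finset.sum_le_sum_of_subset_of_nonneg (fun z hz => ?_) (fun _ _ _ => Nat.cast_nonneg _)
      obtain ⟨a1, a2, a3, a4⟩ := hY z hz
      rw [Set.Finite.mem_toFinset]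
      refine ⟨by linarith, ?_, a3, a4, a1⟩
      by_contra hc
      push Not at hc
      exact riemannZeta_ne_zero_of_one_le_re hc a1
    refine h2.trans (h1.trans ?_)
    have h3 : Real.log t ≤ Real.log T := Real.log_le_log (by linarith) htT
    have h4 : C * Real.log t ≤ C * Real.log T := mul_le_mul_of_nonneg_left h3 hC.le
    have h5 : 0 ≤ C * Real.log T := by positivity
    linarith
  have hsplit : ∑ z ∈ Z, (analyticOrderNatAt riemannZeta z : ℝ) =
      ∑ z ∈ Z.filter (fun z => T - 1 < z.im), (analyticOrderNatAt riemannZeta z : ℝ) +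
      ∑ z ∈ Z.filter (fun z => ¬ T - 1 < z.im), (analyticOrderNatAt riemannZeta z : ℝ) :=
    (Finset.sum_filter_add_sum_filter_not _ _ _).symm
  have hA := half T (by linarith) le_rfl (Z.filter (fun z => T - 1 < z.im)) (by
    intro z hz
    obtain ⟨h1, h2⟩ := Finset.mem_filter.1 hz
    obtain ⟨a1, a2, a3⟩ := hZ z h1
    have := abs_le.1 a3
    exact ⟨a1, a2, h2, by linarith⟩)
  have hB := half (T - 1) (by linarith) (by linarith) (Z.filter (fun z => ¬ T - 1 < z.im)) (by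
    intro z hz
    obtain ⟨h1, h2⟩ := Finset.mem_filter.1 hz
    obtain ⟨a1, a2, a3⟩ := hZ z h1
    have := abs_le.1 a3
    push Not at h2
    exact ⟨a1, a2, by linarith, by linarith⟩)
  rw [hsplit]
  linarith

/-! the functions `F` -/

theorem entire_fin (G : ℂ → ℂ) (hG : Differentiable ℂ G) (hne : ∃ v, G v ≠ 0) (K : Set ℂ)
    (hK : IsCompact K) : {v : ℂ | G v = 0 ∧ v ∈ K}.Finite := by
  by_contra hinf
  have hinf' : {v : ℂ | G v = 0 ∧ v ∈ K}.Infinite := hinf
  obtain ⟨x, _, hx⟩ := hinf'.exists_accPt_of_subset_isCompact hK (fun v hv => hv.2)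
  rw [accPt_iff_frequently_nhdsNE] at hx
  have hFan : AnalyticOnNhd ℂ G univ := fun z _ => hG.analyticAt z
  have := hFan.eqOn_zero_of_preconnected_of_frequently_eq_zero isPreconnected_univ (mem_univ x)
    (hx.mono (fun y hy => hy.1))
  obtain ⟨v, hv⟩ := hne
  exact hv (this (mem_univ v))

theorem order_shift (F G : ℂ → ℂ) (hG : Differentiable ℂ G) (c : ℂ) (hc : c ≠ 0)
    (h : ∀ s, F s = c * G (s - 1 / 2)) (s : ℂ) :
    analyticOrderNatAt F s = analyticOrderNatAt G (s - 1 / 2) := by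
  have hF : F = (fun _ => c) * (G ∘ fun s => s - 1 / 2) := by
    funext s
    rw [h s]
    rfl
  have h1 : AnalyticAt ℂ (fun s : ℂ => s - 1 / 2) s := by fun_prop
  have h2 : analyticOrderAt (G ∘ fun s => s - 1 / 2) s = analyticOrderAt G (s - 1 / 2) := by
    apply analyticOrderAt_comp_of_deriv_ne_zero h1
    simp
  have h3 : AnalyticAt ℂ (G ∘ fun s => s - 1 / 2) s :=
    AnalyticAt.comp (hG.analyticAt _) h1
  have h4 : analyticOrderAt (fun _ : ℂ => c) s = 0 := by
    rw [analyticOrderAt_eq_zero]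
    right
    exact hc
  unfold analyticOrderNatAt
  rw [hF, analyticOrderAt_mul analyticAt_const h3, h4, zero_add, h2]

theorem t_ES (h1 : S_LC) (h2 : S_CP) : S_ES := by
  classical
  intro l F G hR A hA hA0 hA1
  obtain ⟨c1, c2⟩ := h2 l F G hR
  obtain ⟨c, hc, hsh⟩ := hR.shift
  have hne : ∃ v, G v ≠ 0 := ⟨1, fun h => by
    have := hR.strip 1 h
    norm_num at this⟩
  have hzero : ∀ s, F s = 0 → G (s - 1 / 2) = 0 := by
    intro s hs
    rw [hsh] at hs
    exact (mul_eq_zero.1 hs).resolve_left hc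
  have hfin : ∀ T, (rs F (1 / 2) T).Finite := by
    intro T
    have hf := entire_fin G hR.diff hne (Icc (0 : ℝ) (1 / 2) ×ℂ Icc 0 T)
      (isCompact_Icc.reProdIm isCompact_Icc)
    apply (hf.image (fun z => z + 1 / 2)).subset
    rintro s ⟨a1, a2, a3, a4⟩
    refine ⟨s - 1 / 2, ⟨hzero s a1, ?_⟩, by ring⟩
    have h3 := abs_le.1 (hR.strip _ (hzero s a1))
    have e1 : (s - 1 / 2 : ℂ).re = s.re - 1 / 2 := by
      rw [Complex.sub_re]; norm_num
    have e2 : (s - 1 / 2 : ℂ).im = s.im := by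
      rw [Complex.sub_im]; norm_num
    rw [mem_reProdIm, e1, e2]
    rw [e1] at h3
    exact ⟨⟨by linarith, by linarith⟩, a3.le, a4⟩
  have htriv := trivial_bd F hfin (by
    obtain ⟨C, T0, hC, hT0, hl⟩ := h1 l F G hR
    refine ⟨C, T0, hC, hT0, ?_⟩
    intro T hT Z hZ
    have hinj : Function.Injective (fun s : ℂ => s - 1 / 2) := fun a b hab => sub_left_injective hab
    have h3 := hl T hT (Z.image (fun s => s - 1 / 2)) (by
      intro z hz
      obtain ⟨s, hs, rfl⟩ := Finset.mem_image.1 hz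
      obtain ⟨a1, a2, a3⟩ := hZ s hs
      have e1 : (s - 1 / 2 : ℂ).re = s.re - 1 / 2 := by
        rw [Complex.sub_re]; norm_num
      have e2 : (s - 1 / 2 : ℂ).im = s.im := by
        rw [Complex.sub_im]; norm_num
      exact ⟨hzero s a1, by rw [e1]; linarith, by rw [e2]; exact a3⟩)
    rw [Finset.sum_image (fun a _ b _ hab => hinj hab)] at h3
    refine le_trans (le_of_eq ?_) h3
    apply Finset.sum_congr rfl
    intro s _
    rw [order_shift F G hR.diff c hc hsh s])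
  constructor
  · exact pass riemannZeta F fin_zeta (trivial_bd riemannZeta fin_zeta loc_zeta) c2 A hA hA0 hA1
  · exact pass F riemannZeta hfin htriv c1 A hA hA0 hA1

end Pool.Agent.Q187.DJ
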